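import Pool.Agent.W95.EQ.Stm

/-!
# Project EQM: assembly of S_EQM
-/

open Polynomial Topology Filter MeasureTheory
open scoped ENNReal

namespace Pool.Agent.W435.EQ

open Pool.Agent.W95.BK Pool.Agent.W95.EQ

universe u

theorem main : S_DIC.{u} → S_ATM.{u} → S_MAXA.{u} → S_SAT.{u} → S_KER2.{u} → S_EQW.{u} →
    S_EQM.{u} := by
  intro hDIC hATM hMAXA hSAT hKER2 hEQW K _ _ _ _ R hR ρ hρ
  rcases hDIC K R hR ρ hρ.prob hρ.inv with h | ⟨η, a, r, t, hη, hr, ht, h⟩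
  · exact hEQW K R hR ρ hρ.prob (hKER2 K R hR ρ hρ.prob h)
  · exfalso
    have hatm := hATM K ρ hρ.prob η a r t hη hr ht h
    obtain ⟨A, hfin, ⟨o, ho⟩, hA⟩ := hMAXA K R ρ hρ.prob hρ.inv hatm
    have h1 := hSAT K R hR A hfin (fun o ho => ⟨(hA o ho).2.1, (hA o ho).2.2⟩) o ho
    have h2 : ρ {pt o} = 0 := measure_mono_null (by
      intro x hx
      rw [Set.mem_singleton_iff] at hx
      rw [hx]
      exact h1) hρ.julia
    have h3 := (hA o ho).1
    rw [measureReal_def, h2] at h3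
    simp at h3

end Pool.Agent.W435.EQ
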